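import Pool.Agent.U310.TQ.Stm

/-!
# Project TQ, package THR: thresholds
-/

set_option autoImplicit false

open Filter
open scoped Topology

namespace Pool.Agent.U97.TQ

open Pool.Agent.U310.TQ

lemma Rs_add (r : ℕ → ℝ) {a b : ℕ} (hab : a ≤ b) :
    Rs r b = Rs r a + ∑ m ∈ Finset.Ioc a b, r m := by
  unfold Rs
  have e : ∀ x : ℕ, Finset.Icc 1 x = Finset.Ioc 0 x := fun x => rfl
  rw [e, e, Finset.sum_Ioc_consecutive _ (Nat.zero_le a) hab]

lemma Rs_nonneg {r : ℕ → ℝ} (hr : ∀ m, 0 ≤ r m ∧ r m ≤ 1) (x : ℕ) : 0 ≤ Rs r x :=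
  Finset.sum_nonneg fun m _ => (hr m).1

/-- lower bound for the increments -/
lemma Rs_lower {r : ℕ → ℝ} (hr : ∀ m, 0 ≤ r m ∧ r m ≤ 1) {m0 : ℕ}
    (hm0 : ∀ m, m0 ≤ m → 1 / 2 ≤ r m * Real.log m) {X a b : ℕ} (hlX : 0 < Real.log X)
    (hab : a ≤ b) (ha : m0 ≤ a + 1) (hb : b ≤ X ^ 2) :
    ((b : ℝ) - a) / (4 * Real.log X) ≤ Rs r b - Rs r a := by
  rw [Rs_add r hab, add_sub_cancel_left]
  have h : ∀ m ∈ Finset.Ioc a b, 1 / (4 * Real.log X) ≤ r m := by
    intro m hm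
    rw [Finset.mem_Ioc] at hm
    have h1 := hm0 m (by omega)
    have h2 : Real.log m ≤ 2 * Real.log X := by
      have h3 : (m : ℝ) ≤ (X : ℝ) ^ 2 := by exact_mod_cast hm.2.trans hb
      have h4 : (0 : ℝ) < m := by
        have : 0 < m := by omega
        exact_mod_cast this
      have h5 := Real.log_le_log h4 h3
      rw [Real.log_pow] at h5
      exact_mod_cast h5
    have h3 : 1 / 2 ≤ r m * (2 * Real.log X) := h1.trans (mul_le_mul_of_nonneg_left h2 (hr m).1)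
    rw [div_le_iff₀ (by positivity)]
    linarith
  calc ((b : ℝ) - a) / (4 * Real.log X) = ∑ m ∈ Finset.Ioc a b, 1 / (4 * Real.log X) := by
        rw [Finset.sum_const, Nat.card_Ioc, nsmul_eq_mul, Nat.cast_sub hab]
        ring
    _ ≤ _ := Finset.sum_le_sum h

/-- upper bound -/
lemma Rs_upper {r : ℕ → ℝ} (hr : ∀ m, 0 ≤ r m ∧ r m ≤ 1) {m0 : ℕ}
    (hm0 : ∀ m, m0 ≤ m → r m ≤ 1 / 20) (x : ℕ) : Rs r x ≤ m0 + (x : ℝ) / 20 := by
  unfold Rs
  calc ∑ m ∈ Finset.Icc 1 x, r m ≤ ∑ m ∈ Finset.Icc 1 x, ((if m < m0 then 1 else 0) + 1 / 20) := by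
        refine Finset.sum_le_sum fun m _ => ?_
        split_ifs with h
        · have := (hr m).2
          linarith
        · have := hm0 m (not_lt.1 h)
          linarith
    _ = (((Finset.Icc 1 x).filter fun m => m < m0).card : ℝ) + (x : ℝ) / 20 := by
        rw [Finset.sum_add_distrib, Finset.sum_const, Nat.card_Icc, Nat.add_sub_cancel,
          nsmul_eq_mul, Finset.sum_boole]
        ring
    _ ≤ m0 + (x : ℝ) / 20 := by
        have : ((Finset.Icc 1 x).filter fun m => m < m0).card ≤ m0 := by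
          calc ((Finset.Icc 1 x).filter fun m => m < m0).card ≤ (Finset.range m0).card := by
                apply Finset.card_le_card
                intro m hm
                rw [Finset.mem_filter] at hm
                exact Finset.mem_range.2 hm.2
            _ = m0 := Finset.card_range m0
        have h2 : (((Finset.Icc 1 x).filter fun m => m < m0).card : ℝ) ≤ m0 := by exact_mod_cast this
        linarith

/-- Package THR. -/
theorem t_THR : S_THR := by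
  intro r hr hlim
  have hlog : Tendsto (fun n : ℕ => Real.log (n : ℝ)) atTop atTop :=
    Real.tendsto_log_atTop.comp tendsto_natCast_atTop_atTop
  obtain ⟨m0, hm0⟩ : ∃ m0 : ℕ, ∀ m, m0 ≤ m → 1 / 2 ≤ r m * Real.log m ∧ r m ≤ 1 / 20 := by
    have e1 : ∀ᶠ n : ℕ in atTop, 1 / 2 ≤ r n * Real.log n :=
      hlim.eventually (eventually_ge_nhds (show (1 / 2 : ℝ) < 1 by norm_num))
    have e2 : ∀ᶠ n : ℕ in atTop, r n * Real.log n ≤ 2 :=
      hlim.eventually (eventually_le_nhds (show (1 : ℝ) < 2 by norm_num))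
    have e3 : ∀ᶠ n : ℕ in atTop, (40 : ℝ) ≤ Real.log n := hlog.eventually_ge_atTop 40
    obtain ⟨m0, h⟩ := eventually_atTop.1 (e1.and (e2.and e3))
    refine ⟨m0, fun m hm => ⟨(h m hm).1, ?_⟩⟩
    obtain ⟨-, h2, h3⟩ := h m hm
    have h4 := (hr m).1
    nlinarith
  have hA := fun m hm => (hm0 m hm).1
  have hB := fun m hm => (hm0 m hm).2
  have ev1 : ∀ᶠ X : ℕ in atTop, Real.log (X : ℝ) ≤ (X : ℝ) ^ (1 / 16 : ℝ) := by
    have h := (isLittleO_log_rpow_atTop (show (0 : ℝ) < 1 / 16 by norm_num)).bound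
      (show (0 : ℝ) < 1 by norm_num)
    have h' := tendsto_natCast_atTop_atTop.eventually h
    filter_upwards [h', eventually_ge_atTop 1] with X hX hX1
    have h0 : 0 ≤ Real.log (X : ℝ) := Real.log_natCast_nonneg X
    rw [Real.norm_of_nonneg h0, Real.norm_of_nonneg (by positivity), one_mul] at hX
    exact hX
  have ev2 : ∀ᶠ X : ℕ in atTop, (1000 + m0 : ℝ) ≤ (X : ℝ) ^ (1 / 16 : ℝ) :=
    ((tendsto_rpow_atTop (show (0 : ℝ) < 1 / 16 by norm_num)).comp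
      tendsto_natCast_atTop_atTop).eventually_ge_atTop _
  filter_upwards [ev1, ev2] with X h1 h2
  set t : ℝ := (X : ℝ) ^ (1 / 16 : ℝ) with ht
  have hX0 : (0 : ℝ) ≤ X := Nat.cast_nonneg X
  have ht16 : t ^ 16 = X := by
    rw [ht, ← Real.rpow_natCast, ← Real.rpow_mul hX0]
    norm_num
  have hm0' : (0 : ℝ) ≤ m0 := Nat.cast_nonneg m0
  have ht1000 : 1000 ≤ t := by linarith
  have hm0t : (m0 : ℝ) ≤ t := by linarith
  have ht0 : 0 < t := by linarith
  have ht1 : 1 ≤ t := by linarith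
  have hsX : √(X : ℝ) = t ^ 8 := by
    rw [← ht16, show t ^ 16 = (t ^ 8) ^ 2 by ring, Real.sqrt_sq (by positivity)]
  have hXt : t ≤ (X : ℝ) := by
    rw [← ht16]
    exact le_self_pow₀ ht1 (by norm_num)
  have hX1000 : (1000 : ℝ) ≤ X := ht1000.trans hXt
  have hXpos : 0 < X := by
    have : (0 : ℝ) < X := by linarith
    exact_mod_cast this
  have hl1 : 1 ≤ Real.log (X : ℝ) := by
    rw [Real.le_log_iff_exp_le (by linarith)]
    have := Real.exp_one_lt_three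
    linarith
  have hl0 : 0 < Real.log (X : ℝ) := by linarith
  -- powers of t
  have p2 : t ≤ t ^ 2 := le_self_pow₀ ht1 (by norm_num)
  have q1 : 1000 * t ^ 15 ≤ t ^ 16 := by
    have : 0 ≤ t ^ 15 := by positivity
    calc 1000 * t ^ 15 ≤ t * t ^ 15 := mul_le_mul_of_nonneg_right ht1000 this
      _ = t ^ 16 := by ring
  have q2 : t ^ 10 ≤ t ^ 15 := pow_le_pow_right₀ ht1 (by norm_num)
  have q3 : t ≤ t ^ 15 := le_self_pow₀ ht1 (by norm_num)
  have q4 : 1 ≤ t ^ 15 := one_le_pow₀ ht1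
  -- small x
  have hsmall : ∀ x : ℕ, x ≤ 5 * X → Rs r x + √(x : ℝ) * Real.log x ^ 2 < X := by
    intro x hx
    have hx' : (x : ℝ) ≤ 5 * X := by exact_mod_cast hx
    have a1 := Rs_upper hr hB x
    have a2 : √(x : ℝ) ≤ 3 * t ^ 8 := by
      rw [← hsX]
      have : √(x : ℝ) ≤ √(3 ^ 2 * (X : ℝ)) := Real.sqrt_le_sqrt (by linarith)
      rwa [Real.sqrt_mul (by norm_num), Real.sqrt_sq (by norm_num)] at this
    have a3 : 0 ≤ Real.log (x : ℝ) := Real.log_natCast_nonneg x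
    have a4 : Real.log (x : ℝ) ≤ 2 * t := by
      rcases Nat.eq_zero_or_pos x with rfl | hx0
      · simp only [Nat.cast_zero, Real.log_zero]
        linarith
      · have h5 := Real.log_le_log (by exact_mod_cast hx0) hx'
        rw [Real.log_mul (by norm_num) (by linarith)] at h5
        have h6 : Real.log 5 ≤ 5 - 1 := Real.log_le_sub_one_of_pos (by norm_num)
        linarith
    have a5 : Real.log (x : ℝ) ^ 2 ≤ (2 * t) ^ 2 := pow_le_pow_left₀ a3 a4 2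
    have a6 : √(x : ℝ) * Real.log x ^ 2 ≤ (3 * t ^ 8) * (2 * t) ^ 2 :=
      mul_le_mul a2 a5 (by positivity) (by positivity)
    have a7 : (3 * t ^ 8) * (2 * t) ^ 2 = 12 * t ^ 10 := by ring
    rw [a7] at a6
    rw [← ht16] at hx' ⊢
    linarith
  -- x1
  let P1 : ℕ → Prop := fun x => Rs r x + √(x : ℝ) * Real.log x ^ 2 < X
  classical
  have hP10 : P1 0 := hsmall 0 (Nat.zero_le _)
  have hP1X : ¬ P1 (X ^ 2) := by
    intro h
    have b1 := Rs_nonneg hr (X ^ 2)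
    have h' : Rs r (X ^ 2) + √((X ^ 2 : ℕ) : ℝ) * Real.log ((X ^ 2 : ℕ) : ℝ) ^ 2 < X := h
    rw [Nat.cast_pow, Real.sqrt_sq hX0, Real.log_pow] at h'
    push_cast at h'
    have b2 : 1 ≤ (2 * Real.log (X : ℝ)) ^ 2 := one_le_pow₀ (by linarith)
    have b3 : (X : ℝ) * 1 ≤ X * (2 * Real.log (X : ℝ)) ^ 2 := mul_le_mul_of_nonneg_left b2 hX0
    linarith
  obtain ⟨x1, hx1P, hx1n, hx1le⟩ : ∃ x1 : ℕ, P1 x1 ∧ ¬ P1 (x1 + 1) ∧ x1 + 1 ≤ X ^ 2 := by
    have c1 : P1 (Nat.findGreatest P1 (X ^ 2)) := Nat.findGreatest_spec (Nat.zero_le _) hP10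
    have c2 : Nat.findGreatest P1 (X ^ 2) ≤ X ^ 2 := Nat.findGreatest_le _
    have c3 : Nat.findGreatest P1 (X ^ 2) ≠ X ^ 2 := fun h => hP1X (h ▸ c1)
    have c4 : Nat.findGreatest P1 (X ^ 2) + 1 ≤ X ^ 2 := by omega
    exact ⟨_, c1, Nat.findGreatest_is_greatest (Nat.lt_succ_self _) c4, c4⟩
  have hx15 : 5 * X ≤ x1 := by
    by_contra hc
    exact hx1n (hsmall (x1 + 1) (by omega))
  -- x2
  let P2 : ℕ → Prop := fun x => (X : ℝ) + X / (100 * Real.log X) + 1 < Rs r x - √(x : ℝ) * Real.log x ^ 2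
  have hdiv : (X : ℝ) / (100 * Real.log X) ≤ t ^ 16 := by
    rw [ht16]
    exact div_le_self hX0 (by linarith)
  have hm0X : m0 ≤ X ^ 2 := by
    have : (m0 : ℝ) ≤ (X : ℝ) ^ 2 := by
      have : (X : ℝ) ≤ (X : ℝ) ^ 2 := le_self_pow₀ (by linarith) (by norm_num)
      linarith
    exact_mod_cast this
  have hP2X : P2 (X ^ 2) := by
    show (X : ℝ) + X / (100 * Real.log X) + 1 <
      Rs r (X ^ 2) - √((X ^ 2 : ℕ) : ℝ) * Real.log ((X ^ 2 : ℕ) : ℝ) ^ 2
    have d1 := Rs_lower hr hA hl0 hm0X (Nat.le_succ m0) le_rfl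
    have d2 := Rs_nonneg hr m0
    rw [Nat.cast_pow, Real.sqrt_sq hX0, Real.log_pow]
    rw [Nat.cast_pow] at d1
    push_cast
    have d3 : t ^ 31 / 5 ≤ ((X : ℝ) ^ 2 - m0) / (4 * Real.log X) := by
      rw [le_div_iff₀ (by linarith)]
      have d4 : t ^ 31 / 5 * (4 * Real.log X) ≤ t ^ 31 / 5 * (4 * t) :=
        mul_le_mul_of_nonneg_left (by linarith) (by positivity)
      have d5 : (X : ℝ) ^ 2 = t ^ 32 := by rw [← ht16]; ring
      have d6 : t ^ 2 ≤ t ^ 32 := pow_le_pow_right₀ ht1 (by norm_num)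
      have d7 : 1000 * t ≤ t ^ 2 := by nlinarith
      rw [d5]
      have d8 : t ^ 31 / 5 * (4 * t) = 4 / 5 * t ^ 32 := by ring
      rw [d8] at d4
      linarith
    have d9 : (X : ℝ) * (2 * Real.log (X : ℝ)) ^ 2 ≤ 4 * t ^ 18 := by
      have e1 : (2 * Real.log (X : ℝ)) ^ 2 ≤ (2 * t) ^ 2 :=
        pow_le_pow_left₀ (by linarith) (by linarith) 2
      calc (X : ℝ) * (2 * Real.log (X : ℝ)) ^ 2 ≤ X * (2 * t) ^ 2 := mul_le_mul_of_nonneg_left e1 hX0
        _ = 4 * t ^ 18 := by rw [← ht16]; ring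
    have d10 : t ^ 16 ≤ t ^ 18 := pow_le_pow_right₀ ht1 (by norm_num)
    have d11 : 1000 * t ^ 18 ≤ t ^ 31 := by
      have e1 : t * t ^ 18 ≤ t ^ 31 := by
        rw [← pow_succ']
        exact pow_le_pow_right₀ ht1 (by norm_num)
      have e2 : 1000 * t ^ 18 ≤ t * t ^ 18 := mul_le_mul_of_nonneg_right ht1000 (by positivity)
      linarith
    have d12 : 1 ≤ t ^ 18 := one_le_pow₀ ht1
    linarith
  obtain ⟨x2, hx2P, hx2n, hx21, hx2X⟩ : ∃ x2 : ℕ, P2 x2 ∧ ¬ P2 (x2 - 1) ∧ 1 ≤ x2 ∧ x2 ≤ X ^ 2 := by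
    have f1 := Nat.find_spec (⟨_, hP2X⟩ : ∃ x, P2 x)
    have f2 : Nat.find (⟨_, hP2X⟩ : ∃ x, P2 x) ≤ X ^ 2 := Nat.find_min' _ hP2X
    have f3 : 1 ≤ Nat.find (⟨_, hP2X⟩ : ∃ x, P2 x) := by
      rw [Nat.one_le_iff_ne_zero]
      intro h0
      rw [h0] at f1
      have f4 : (X : ℝ) + X / (100 * Real.log X) + 1 < Rs r 0 - √((0 : ℕ) : ℝ) * Real.log ((0 : ℕ) : ℝ) ^ 2 := f1
      have f5 : Rs r 0 = 0 := by simp [Rs]
      have f6 : 0 ≤ (X : ℝ) / (100 * Real.log X) := by positivity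
      rw [f5, Nat.cast_zero, Real.sqrt_zero, zero_mul, sub_zero] at f4
      linarith
    exact ⟨_, f1, Nat.find_min _ (by omega), f3, f2⟩
  refine ⟨x1, x2, hx1P, hx2P, ?_, hx15, hx2X⟩
  obtain ⟨y, rfl⟩ : ∃ y, x2 = y + 1 := ⟨x2 - 1, by omega⟩
  rw [Nat.add_sub_cancel] at hx2n
  have hx2n' : Rs r y - √(y : ℝ) * Real.log y ^ 2 ≤ (X : ℝ) + X / (100 * Real.log X) + 1 :=
    not_lt.1 hx2n
  have hx1n' : (X : ℝ) ≤ Rs r (x1 + 1) + √((x1 + 1 : ℕ) : ℝ) * Real.log ((x1 + 1 : ℕ) : ℝ) ^ 2 :=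
    not_lt.1 hx1n
  rcases Nat.lt_or_ge (x1 + 1) y with hy | hy
  · have hy5 : 5 * (X : ℝ) ≤ y := by exact_mod_cast (by omega : 5 * X ≤ y)
    have hy0 : (0 : ℝ) < y := by linarith
    have hyX : y ≤ X ^ 2 := by omega
    have hm0y : m0 ≤ y := by
      have : (m0 : ℝ) ≤ y := by linarith
      exact_mod_cast this
    have hlogy : Real.log (y : ℝ) ≤ 2 * t := by
      have h3 : (y : ℝ) ≤ (X : ℝ) ^ 2 := by exact_mod_cast hyX
      have h5 := Real.log_le_log hy0 h3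
      rw [Real.log_pow] at h5
      push_cast at h5
      linarith
    have hlogy0 : 0 ≤ Real.log (y : ℝ) := Real.log_natCast_nonneg y
    have hl2 : Real.log (y : ℝ) ^ 2 ≤ 4 * t ^ 2 := by
      have := pow_le_pow_left₀ hlogy0 hlogy 2
      calc Real.log (y : ℝ) ^ 2 ≤ (2 * t) ^ 2 := this
        _ = 4 * t ^ 2 := by ring
    -- first bound for y
    have g1 := Rs_lower hr hA hl0 hm0y (Nat.le_succ m0) hyX
    have g2 := Rs_nonneg hr m0
    have g3 : ((y : ℝ) - m0) / (4 * t) ≤ ((y : ℝ) - m0) / (4 * Real.log X) := by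
      have : (m0 : ℝ) ≤ y := by exact_mod_cast hm0y
      apply div_le_div_of_nonneg_left (by linarith) (by linarith) (by linarith)
    have hsy0 : 0 ≤ √(y : ℝ) := Real.sqrt_nonneg _
    have g4 : √(y : ℝ) * Real.log y ^ 2 ≤ √(y : ℝ) * (4 * t ^ 2) :=
      mul_le_mul_of_nonneg_left hl2 hsy0
    have g5 : ((y : ℝ) - m0) / (4 * t) ≤ t ^ 16 + t ^ 16 + 1 + √(y : ℝ) * (4 * t ^ 2) := by
      linarith
    have g6 : (y : ℝ) - m0 ≤ (t ^ 16 + t ^ 16 + 1 + √(y : ℝ) * (4 * t ^ 2)) * (4 * t) := by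
      rwa [div_le_iff₀ (by linarith)] at g5
    have hsy : t ^ 8 ≤ √(y : ℝ) := by
      rw [← hsX]
      exact Real.sqrt_le_sqrt (by linarith)
    have hyy : √(y : ℝ) * √(y : ℝ) = y := Real.mul_self_sqrt hy0.le
    have g7 : √(y : ℝ) * (16 * t ^ 3) ≤ y / 2 := by
      have e1 : 32 * t ^ 3 ≤ t ^ 8 := by
        have e2 : t * t ^ 3 ≤ t ^ 8 := by
          rw [← pow_succ']
          exact pow_le_pow_right₀ ht1 (by norm_num)
        have e3 : 1000 * t ^ 3 ≤ t * t ^ 3 := mul_le_mul_of_nonneg_right ht1000 (by positivity)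
        have e4 : 0 ≤ t ^ 3 := by positivity
        linarith
      have e5 : √(y : ℝ) * (32 * t ^ 3) ≤ √(y : ℝ) * √(y : ℝ) :=
        mul_le_mul_of_nonneg_left (e1.trans hsy) hsy0
      rw [hyy] at e5
      linarith
    have g8 : (y : ℝ) ≤ t ^ 24 := by
      have e1 : (t ^ 16 + t ^ 16 + 1 + √(y : ℝ) * (4 * t ^ 2)) * (4 * t) =
          8 * t ^ 17 + 4 * t + √(y : ℝ) * (16 * t ^ 3) := by ring
      rw [e1] at g6
      have e2 : t ≤ t ^ 17 := le_self_pow₀ ht1 (by norm_num)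
      have e3 : 1000 * t ^ 17 ≤ t ^ 24 := by
        have e4 : t * t ^ 17 ≤ t ^ 24 := by
          rw [← pow_succ']
          exact pow_le_pow_right₀ ht1 (by norm_num)
        have e5 : 1000 * t ^ 17 ≤ t * t ^ 17 := mul_le_mul_of_nonneg_right ht1000 (by positivity)
        linarith
      linarith
    have g9 : √(y : ℝ) ≤ t ^ 12 := by
      have : √(y : ℝ) ≤ √((t ^ 12) ^ 2) := Real.sqrt_le_sqrt (by
        calc (y : ℝ) ≤ t ^ 24 := g8
          _ = (t ^ 12) ^ 2 := by ring)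
      rwa [Real.sqrt_sq (by positivity)] at this
    -- second bound
    have hm1 : m0 ≤ (x1 + 1) + 1 := by
      have h5 : (m0 : ℝ) ≤ x1 := by
        have : 5 * (X : ℝ) ≤ x1 := by exact_mod_cast hx15
        linarith
      have : m0 ≤ x1 := by exact_mod_cast h5
      omega
    have k1 := Rs_lower hr hA hl0 hy.le hm1 hyX
    have k2 : √((x1 + 1 : ℕ) : ℝ) * Real.log ((x1 + 1 : ℕ) : ℝ) ^ 2 ≤ 4 * t ^ 14 := by
      have e0 : ((x1 + 1 : ℕ) : ℝ) ≤ y := by exact_mod_cast hy.le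
      have e1 : √((x1 + 1 : ℕ) : ℝ) ≤ t ^ 12 := (Real.sqrt_le_sqrt e0).trans g9
      have e2 : Real.log ((x1 + 1 : ℕ) : ℝ) ≤ Real.log y :=
        Real.log_le_log (by exact_mod_cast Nat.succ_pos x1) e0
      have e3 : 0 ≤ Real.log ((x1 + 1 : ℕ) : ℝ) := Real.log_natCast_nonneg _
      have e4 : Real.log ((x1 + 1 : ℕ) : ℝ) ^ 2 ≤ 4 * t ^ 2 :=
        (pow_le_pow_left₀ e3 e2 2).trans hl2
      calc √((x1 + 1 : ℕ) : ℝ) * Real.log ((x1 + 1 : ℕ) : ℝ) ^ 2 ≤ t ^ 12 * (4 * t ^ 2) :=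
            mul_le_mul e1 e4 (by positivity) (by positivity)
        _ = 4 * t ^ 14 := by ring
    have k3 : √(y : ℝ) * Real.log y ^ 2 ≤ 4 * t ^ 14 := by
      calc √(y : ℝ) * Real.log y ^ 2 ≤ t ^ 12 * (4 * t ^ 2) :=
            mul_le_mul g9 hl2 (by positivity) (by positivity)
        _ = 4 * t ^ 14 := by ring
    have k4 : ((y : ℝ) - ((x1 + 1 : ℕ) : ℝ)) / (4 * Real.log X) ≤
        X / (100 * Real.log X) + 1 + 8 * t ^ 14 := by
      linarith
    have k5 : (y : ℝ) - ((x1 + 1 : ℕ) : ℝ) ≤ (X / (100 * Real.log X) + 1 + 8 * t ^ 14) * (4 * Real.log X) := by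
      rwa [div_le_iff₀ (by linarith)] at k4
    have k6 : (X / (100 * Real.log X) + 1 + 8 * t ^ 14) * (4 * Real.log X) =
        X / 25 + (1 + 8 * t ^ 14) * (4 * Real.log X) := by
      field_simp
      ring
    have k7 : (1 + 8 * t ^ 14) * (4 * Real.log X) ≤ (1 + 8 * t ^ 14) * (4 * t) :=
      mul_le_mul_of_nonneg_left (by linarith) (by positivity)
    have k8 : (1 + 8 * t ^ 14) * (4 * t) = 4 * t + 32 * t ^ 15 := by ring
    rw [k6] at k5
    rw [k8] at k7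
    push_cast at k5 ⊢
    linarith
  · have : ((y + 1 : ℕ) : ℝ) ≤ x1 + 2 := by exact_mod_cast (by omega : y + 1 ≤ x1 + 2)
    linarith

end Pool.Agent.U97.TQ
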